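import Pool.Agent.Helper96.T5g.MultRho
import Pool.Agent.Helper3.T5.J0
import Pool.Agent.Helper1.T5.Split
import Pool.Agent.Helper25.T5g.Num
import Pool.Agent.Helper36.T5g.Two
import Pool.Agent.Helper75.T5g.Up
import Pool.Agent.Helper30.T5g.BigQF

/-!
# T5b, line 7 (CaseTwo): multiplicity of the sums of two joint codes

In a free set of hits at most `N` have the same value of the sum of the two joint codes.
-/

set_option autoImplicit false

namespace Pool.Agent.Helper96.T5g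

open Finset Pool.Agent.Helper27.T4 Pool.Agent.Helper84.T5g Pool.Agent.Helper37.T5g
open Pool.Agent.Helper30.T5g hiding pz_prime pz_inj NL_pos
open Pool.Agent.Helper27.T5b
open Pool.Agent.Helper27.T5g hiding FF_pos dvd_cs cs_lt QQ_eq_NN c0_lt Jn_pos
open Pool.Agent.Helper5.ET hiding Key keysOf Mk AA Rp el
open Pool.Agent.Helper3.T5 Pool.Agent.Helper39.T5 Pool.Agent.Helper54.T5g
open Pool.Agent.Helper3.T5g Pool.Agent.Helper22.SL
open Pool.Agent.Helper63.T5g (LateN exists_lateN)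

variable {m : Sq} {k l' l : ℕ}

/-! ## free sets of labels -/

/-- a free set of hits with a fixed sum of the joint codes gives a free set of labels -/
theorem labels_of_free (hM : (MNs m k l' l).Ok (Mk m k)) (hs : Same m k l' l) {w : Key → ℕ}
    {n s : ℕ} {T : Finset (Par m k l × Par m k l')} (hT : T ⊆ Hts m k l l' w n)
    (hF : Free m k l l' T)
    (hsum : ∀ q ∈ T, c0 m k l w q.1.1.1 + c0 m k l' w q.2.1.1 = s) {N : ℕ} (hN : N < T.card) :
    ∃ H : Finset (((JF → ℕ) × (JF → ℕ)) × Unit), H.card = N + 1 ∧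
      (∀ t ∈ H, t.1.1 ∈ (MNs m k l' l).X ∧ t.1.2 ∈ (MNs m k l' l).X' ∧
        t.2 ∈ ({()} : Finset Unit) ∧
        (MNs m k l' l).cd hM w t.1.1 + (MNs m k l' l).cd' hM w t.1.2 = s) ∧
      (MNs m k l' l).Free H := by
  classical
  obtain ⟨T1, hT1, hc⟩ := exists_subset_card_eq (show N + 1 ≤ T.card by omega)
  have hinj : Set.InjOn (fun q : Par m k l × Par m k l' => ((q.1.1.1, q.2.1.1), ()))
      (T1 : Set (Par m k l × Par m k l')) := by
    intro q hq r hr he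
    by_contra hne
    obtain ⟨f, -, hf⟩ := (hF q (hT1 (mem_coe.1 hq)) r (hT1 (mem_coe.1 hr)) hne).1
    apply hf
    have h1 : q.1.1.1 = r.1.1.1 := congrArg (fun z => z.1.1) he
    rw [h1]
  refine ⟨T1.image (fun q => ((q.1.1.1, q.2.1.1), ())), ?_, ?_, ?_⟩
  · rw [card_image_of_injOn hinj, hc]
  · intro t ht
    obtain ⟨q, hq, rfl⟩ := mem_image.1 ht
    have h1 := hT (hT1 hq)
    unfold Hts Pm at h1
    rw [mem_filter, mem_product, mem_product, mem_product, mem_product, mem_product] at h1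
    refine ⟨h1.1.1.1.1, h1.1.2.1.1, mem_singleton_self _, ?_⟩
    rw [MNs_cd hM, MNs_cd' hs hM]
    exact hsum q (hT1 hq)
  · intro t ht u hu htu
    obtain ⟨q, hq, rfl⟩ := mem_image.1 ht
    obtain ⟨r, hr, rfl⟩ := mem_image.1 hu
    have hqr : q ≠ r := fun e => htu (by rw [e])
    obtain ⟨⟨f, hf, h1⟩, ⟨g, hg, h2⟩⟩ := hF q (hT1 hq) r (hT1 hr) hqr
    exact ⟨⟨Sum.inl f, mem_image_of_mem _ hf, h1⟩, ⟨Sum.inl g, mem_image_of_mem _ hg, h2⟩⟩

/-! ## one pair -/

/-- the probability of a large free set of hits with the same sum -/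
theorem mult_pair (hm : m.Ok) (h : Dat m k l' l) (hM : (MNs m k l' l).Ok (Mk m k))
    {ρ : ℝ} (hρ : 0 ≤ ρ)
    (hr : ((MNs m k l' l).C : ℝ) * (MNs m k l' l).Lam *
      (((MNs m k l' l).Ne' : ℝ) / (MNs m k l' l).Ne + 1 / (MNs m k l' l).q) ≤ ρ)
    {K : Finset Key} (hK : keysOf m k l ⊆ K) (hK' : keysOf m k l' ⊆ K) (N : ℕ) :
    PrG (Mk m k) K (fun w => ∃ c, Pool.Agent.Helper36.T5g.MulC m k l l' w c ∧ N < c)
      (2 * (MNs m k l' l).Ne * (((MNs m k l' l).q : ℝ) ^ 2 * ρ ^ (N + 1))) := by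
  have hbb : bb 0 ≤ mL m k l := h.h0.trans (l1_mono _ h.ll.le)
  have h1 : ((({()} : Finset Unit).card : ℕ) : ℝ) *
      ((MNs m k l' l).C * (MNs m k l' l).Lam *
      (((MNs m k l' l).Ne' : ℝ) / (MNs m k l' l).Ne + 1 / (MNs m k l' l).q)) ≤ ρ := by
    rw [card_singleton, Nat.cast_one, one_mul]
    exact hr
  have key := PrG_exists (Mk := Mk m k) (K := K) (range (2 * (MNs m k l' l).Ne))
    (fun s _ => main_tuple hM (Mk_pos m k)
      (fun x hx i => hK (MNs_key_mem hm hbb hx i)) (fun x hx i => hK' (MNs_key_mem' hm h.h0 hx i))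
      ({()} : Finset Unit) (fun _ => s) hρ h1 N)
  refine PrG_mono ?_ (le_of_eq ?_) key
  · rintro r _ ⟨c, ⟨n, s, T, hT, hF, hsum, rfl⟩, hN⟩
    obtain ⟨H, a1, a2, a3⟩ := labels_of_free hM h.ss hT hF hsum hN
    refine ⟨s, ?_, H, a1, a2, a3⟩
    have hne : H.Nonempty := by
      rw [← card_pos, a1]
      omega
    obtain ⟨t, ht⟩ := hne
    have b := a2 t ht
    rw [mem_range, ← b.2.2.2]
    exact sum_lt hM _ _ _
  · rw [sum_const, card_range, nsmul_eq_mul]
    push_cast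
    ring

/-! ## the number of the hits -/

/-- the bound of the multiplicity -/
noncomputable def NT (m : Sq) (k l : ℕ) : ℕ := 10000 * (l / SS m (sL m k l) + 1)

theorem NT_mul (m : Sq) (k l : ℕ) : 10000 * (l : ℝ) ≤ (NT m k l : ℝ) * SS m (sL m k l) := by
  have h1 := Nat.lt_div_mul_add (a := l) (SS_pos m (sL m k l))
  have h2 : 10000 * l ≤ NT m k l * SS m (sL m k l) := by
    unfold NT
    calc 10000 * l ≤ 10000 * (l / SS m (sL m k l) * SS m (sL m k l) + SS m (sL m k l)) :=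
          Nat.mul_le_mul_left _ h1.le
      _ = _ := by ring
  exact_mod_cast h2

/-- the failure probability -/
theorem mult_fail {l : ℕ} {Ne q W N : ℝ} (hNe : Ne ≤ Real.exp (30 * l)) (hq : q ≤ Ne)
    (hq0 : 0 ≤ q) (hl : 1 ≤ (l : ℝ)) (hN : 10000 * (l : ℝ) ≤ N * W) (hW : 0 ≤ W) :
    2 * Ne * (q ^ 2 * Real.exp (-(W / 10)) ^ (⌊N⌋₊ + 1)) ≤ Real.exp (-(l : ℝ)) := by
  have hNe0 : 0 ≤ Ne := hq0.trans hq
  have h2 : (2 : ℝ) ≤ Real.exp l := by
    have := Real.add_one_le_exp (l : ℝ)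
    linarith
  have h3 : q ^ 2 ≤ Real.exp (60 * l) := by
    calc q ^ 2 ≤ (Real.exp (30 * l)) ^ 2 := pow_le_pow_left₀ hq0 (hq.trans hNe) 2
      _ = _ := by
        rw [← Real.exp_nat_mul]
        congr 1
        push_cast
        ring
  have h4 : Real.exp (-(W / 10)) ^ (⌊N⌋₊ + 1) ≤ Real.exp (-(1000 * l)) := by
    rw [← Real.exp_nat_mul]
    apply Real.exp_le_exp.2
    have h5 : N ≤ ((⌊N⌋₊ + 1 : ℕ) : ℝ) := by
      push_cast
      exact (Nat.lt_floor_add_one N).le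
    have h6 := mul_le_mul_of_nonneg_right h5 hW
    linarith
  calc 2 * Ne * (q ^ 2 * Real.exp (-(W / 10)) ^ (⌊N⌋₊ + 1))
      ≤ Real.exp l * Real.exp (30 * l) * (Real.exp (60 * l) * Real.exp (-(1000 * l))) := by
        have := Real.exp_pos (-(W / 10))
        gcongr
    _ = Real.exp (l + 30 * l + (60 * l + -(1000 * l))) := by
        rw [Real.exp_add, Real.exp_add, Real.exp_add]
    _ ≤ _ := Real.exp_le_exp.2 (by linarith)

/-- **MULT** -/
theorem multS : Pool.Agent.Helper36.T5g.MultS := by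
  obtain ⟨E, hE⟩ := Pool.Agent.Helper75.T5g.exists_le_SS_sL
  refine ⟨E + 1, 2, fun m hF _ => ?_⟩
  have hm := hF.toOk
  have hQ := Pool.Agent.Helper30.T5g.bigQ_of_okF hF
  have hE' := hE m hF
  have hq400 := hm.q 0
  set k := m.k with hk
  obtain ⟨K0, h0⟩ := hE'
  obtain ⟨K1, h1⟩ := exists_dat hm k
  obtain ⟨K2, h2⟩ := MNs_ok hm k
  obtain ⟨K3, h3⟩ := exists_lateN hm k (1000 * Real.log (2 * (2 * BP k) ^ 7))
  obtain ⟨K4, h4⟩ := exists_late (m := m) (k := k) hm (bb 3) 0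
  obtain ⟨K5, h5⟩ := Pool.Agent.Helper25.T5g.exists_NL_exp hm k
  refine ⟨K0 + K1 + K2 + K3 + K4 + K5 + 1, 1, 1, one_pos, zero_le_one, ?_⟩
  intro l l' hl' hll hap hC K hK hK'
  obtain ⟨hn, hs, hf, hD⟩ := hC
  have hlt : l' < l := lt_of_lt_of_le (ef_bounds hm k l' 0).1 hf.le
  have d := h1 l' l (by omega) hlt hn hs
  have hM := h2 l' l (by omega) hlt hn hs
  have hL := h3 l' (by omega)
  obtain ⟨a1, a2, a3, -, -⟩ := h4 l' (by omega)
  obtain ⟨b1, b2, b3, -, b5⟩ := h4 l (by omega)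
  have hρ := MNs_rho hm d hL a3 a1 hf hD
  have hl1 : 1 ≤ l := by omega
  have hl1R : (1 : ℝ) ≤ l := by exact_mod_cast hl1
  have key := mult_pair hm d hM (Real.exp_pos _).le hρ hK hK' (NT m k l)
  have hfl : ⌊(NT m k l : ℝ)⌋₊ = NT m k l := Nat.floor_natCast _
  -- sizes
  have hNe : ((MNs m k l' l).Ne : ℝ) ≤ Real.exp (30 * l) := by
    have e1 : (MNs m k l' l).Ne ≤ NL m k (ef m k l 0) := by
      rw [MNs_Ne, ← FF_mul_RT hm b2 0]
      exact Nat.le_mul_of_pos_right _ (RT_pos _ _ _)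
    have e2 := h5 (ef m k l 0) (by have := d.le; omega)
    have e3 : ef m k l 0 ≤ 2 * l := by
      have := (ef_bounds hm k l 0).2.1
      have := Pool.Agent.Helper25.T5g.SS_sL_le hm b2 b3
      rw [Nat.sub_zero] at *
      omega
    have e4 : ((ef m k l 0 : ℕ) : ℝ) ≤ 2 * l := by exact_mod_cast e3
    calc ((MNs m k l' l).Ne : ℝ) ≤ NL m k (ef m k l 0) := by exact_mod_cast e1
      _ ≤ Real.exp (15 * (ef m k l 0 : ℕ)) := e2
      _ ≤ _ := Real.exp_le_exp.2 (by linarith)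
  have hq : ((MNs m k l' l).q : ℝ) ≤ (MNs m k l' l).Ne := by
    have e1 : (MNs m k l' l).q ≤ (MNs m k l' l).Ne :=
      Nat.le_of_dvd (NN_pos hM.prime _) (pow_dvd_NN _ _ _)
    exact_mod_cast e1
  have hfail := mult_fail hNe hq (Nat.cast_nonneg _) hl1R (NT_mul m k l) (Nat.cast_nonneg _)
  rw [hfl] at hfail
  refine Pool.Agent.Helper1.T5.prG_iff_prLe.1 ?_
  refine PrG_mono ?_ ?_ key
  · rintro r hr ⟨c, hc, hlt2⟩
    refine ⟨c, hc, ?_⟩
    have hNT : NT m k l ≤ 2 ^ ((E + 1) * m.q 0) := by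
      have e1 : l / SS m (sL m k l) ≤ 2 ^ (E * m.q 0) := by
        refine Nat.div_le_of_le_mul ?_
        rw [mul_comm]
        exact h0 l (by omega)
      have e2 : 1 ≤ 2 ^ (E * m.q 0) := Nat.one_le_two_pow
      have e3 : 2 ^ 15 ≤ 2 ^ m.q 0 := Nat.pow_le_pow_right (by norm_num) (by omega)
      have e4 : 2 ^ ((E + 1) * m.q 0) = 2 ^ (E * m.q 0) * 2 ^ m.q 0 := by
        rw [← pow_add]
        congr 1
        ring
      unfold NT
      rw [e4]
      calc 10000 * (l / SS m (sL m k l) + 1) ≤ 10000 * (2 ^ (E * m.q 0) + 2 ^ (E * m.q 0)) :=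
            Nat.mul_le_mul_left _ (by omega)
        _ = 2 ^ (E * m.q 0) * 20000 := by ring
        _ ≤ 2 ^ (E * m.q 0) * 2 ^ m.q 0 := Nat.mul_le_mul_left _ (by omega)
    omega
  · rw [one_mul, Real.rpow_one]
    exact hfail

end Pool.Agent.Helper96.T5g
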