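import Pool.Agent.Helper3.T5g.MidDefs
import Pool.Agent.Helper27.T5g.Basic
import Pool.Agent.Helper30.T5g.NLb

/-!
# T5g, line 8 (CaseMid): the joint level of a pair without SPLIT satisfies the requirements of `MP`

One border or one order change between the states is allowed.
-/

set_option autoImplicit false

namespace Pool.Agent.Helper96.T5g

open Finset Pool.Agent.Helper27.T4 Pool.Agent.Helper84.T5g Pool.Agent.Helper37.T5g
  Pool.Agent.Helper30.T5g Pool.Agent.Helper27.T5g Pool.Agent.Helper27.T5b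
open Pool.Agent.Helper5.ET hiding Key keysOf Mk AA Rp el
open Pool.Agent.Helper3.T5 Pool.Agent.Helper39.T5 Pool.Agent.Helper54.T5g
open Pool.Agent.Helper3.T5g

variable {m : Sq} {k l' l : ℕ}

/-! ## sizes -/

theorem SS_sL_le_ZZ (m : Sq) (k l : ℕ) : SS m (sL m k l) ≤ ZZ m k (era (mL m k l)) := by
  have h1 : ∀ t, SS m t ≤ Zt m t := fun t => by
    unfold Zt
    omega
  unfold ZZ
  split_ifs with h
  · refine (SS_mono m ?_).trans (h1 _)
    exact sv_le_lv_succ m k _
  · have h2 : sL m k l = lv m k (era (mL m k l)) := by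
      unfold sL sv
      rw [if_neg (fun hc => h hc.1)]
      rfl
    rw [h2]
    exact h1 _

/-- large indices -/
theorem exists_large (m : Sq) (k : ℕ) : ∃ l0, ∀ l', l0 ≤ l' →
    bb 0 ≤ mL m k l' ∧ kt m k ≤ era (mL m k l') := by
  refine ⟨pos (ins m k) (bb (kt m k)) + 1, fun l' h => ?_⟩
  have h1 : bb (kt m k) < mL m k l' := lt_l1_iff.2 (by omega)
  refine ⟨(bb_strictMono.monotone (Nat.zero_le _)).trans h1.le, ?_⟩
  have h2 := Pool.Agent.Helper27.T4.era_mono h1.le
  rwa [era_bb] at h2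

/-- the data of a near pair without SPLIT -/
structure Dat (m : Sq) (k l' l : ℕ) : Prop where
  h0 : bb 0 ≤ mL m k l'
  ll : l' < l
  ss : sL m k l' = sL m k l
  cl : 60 * (mL m k l - mL m k l') ≤ mL m k l
  top : mL m k (ef m k l 0) ≤ bb (era (mL m k l') + 2)
  le' : l' ≤ ef m k l' 0
  ee : ef m k l' 0 ≤ ef m k l 0
  le : l ≤ ef m k l 0

theorem dat_of (hm : m.Ok) (h0 : bb 0 ≤ mL m k l') (hk : kt m k ≤ era (mL m k l'))
    (hl : l' < l) (hn : Near m k l' l) (hs : Same m k l' l) : Dat m k l' l := by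
  have e1 := ef_bounds hm k l' 0
  have e2 := ef_bounds hm k l 0
  have h1 := ZZ_len hm hk
  have h2 := (era_spec _ h0)
  have h3 : mL m k l' ≤ mL m k l := l1_mono (ins m k) hl.le
  have hn' : 4 * (mL m k l - mL m k l') < ZZ m k (era (mL m k l')) := hn
  refine ⟨h0, hl, hs, by omega, ?_, e1.1.le, ?_, e2.1.le⟩
  · have h4 := ZZ_len hm (hk.trans (Nat.le_succ _))
    have h5 := ZZ_mono hm k (Nat.le_succ (era (mL m k l')))
    have h6 : bb (era (mL m k l') + 1) + len (era (mL m k l') + 1) =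
        bb (era (mL m k l') + 2) := bb_add_len _
    have h7 : mL m k (ef m k l 0) ≤ mL m k l + (ef m k l 0 - l) := l1_sub_le (ins m k) e2.1.le
    have h8 := e2.2.1
    have h9 := SS_sL_le_ZZ m k l'
    have h10 : SS m (sL m k l - 0) = SS m (sL m k l') := by
      rw [Nat.sub_zero]
      exact congrArg (SS m) (show sL m k l = sL m k l' from hs.symm)
    simp only [Nat.succ_eq_add_one] at h4 h5
    omega
  · have h4 : ef m k l' 0 = ez m (sL m k l - 0) l' := by
      unfold ef
      rw [show sL m k l' = sL m k l from hs]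
    rw [h4]
    exact ez_mono m _ hl.le

theorem exists_dat (hm : m.Ok) (k : ℕ) : ∃ l0, ∀ l' l, l0 ≤ l' → l' < l →
    Near m k l' l → Same m k l' l → Dat m k l' l := by
  obtain ⟨l0, h⟩ := exists_large m k
  exact ⟨l0, fun l' l h0 hl hn hs => dat_of hm (h l' h0).1 (h l' h0).2 hl hn hs⟩

/-! ## the digits of the third family -/

theorem aJ_cnt (m : Sq) (k s x : ℕ) (f : Fin 3) : aJ m k s x (Sum.inl f) = cnt f (mL m k x) := by
  rw [aJ_inl, ct_main]
  rfl

theorem own_pair (h : Dat m k l' l) {t : ℕ} (h1 : mL m k l' ≤ t) (h2 : t < mL m k (ef m k l 0)) :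
    own t = fam (era (mL m k l')) ∨ own t = fam (era (mL m k l') + 1) := by
  have h3 := Pool.Agent.Helper27.T4.era_mono h1
  have h4 := era_spec t (h.h0.trans h1)
  have h5 : era t ≤ era (mL m k l') + 1 := by
    by_contra hc
    have h6 : bb (era (mL m k l') + 2) ≤ bb (era t) := bb_strictMono.monotone (by omega)
    have h7 := h.top
    omega
  rw [own_eq]
  rcases Nat.lt_or_ge (era (mL m k l')) (era t) with h6 | h6
  · right
    rw [show era t = era (mL m k l') + 1 by omega]
  · left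
    rw [show era t = era (mL m k l') by omega]

theorem cnt_third (h : Dat m k l' l) {x : ℕ} (h1 : l' ≤ x) (h2 : x ≤ ef m k l 0) :
    cnt (fam (era (mL m k l') + 2)) (mL m k x) =
      cnt (fam (era (mL m k l') + 2)) (mL m k l') := by
  apply cnt_eq_of _ (l1_mono (ins m k) h1)
  intro t ht1 ht2
  have ht3 : t < mL m k (ef m k l 0) := lt_of_lt_of_le ht2 (l1_mono (ins m k) h2)
  rcases own_pair h ht1 ht3 with h3 | h3
  · rw [h3]
    exact fam_ne_succ2 _
  · rw [h3]
    exact fam_ne_succ _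

theorem aJ_third (h : Dat m k l' l) (s : ℕ) {x : ℕ} (h1 : l' ≤ x) (h2 : x ≤ ef m k l 0) :
    aJ m k s x (Sum.inl (fam (era (mL m k l') + 2))) =
      aJ m k s l' (Sum.inl (fam (era (mL m k l') + 2))) := by
  rw [aJ_cnt, aJ_cnt, cnt_third h h1 h2]

/-! ## who hashes the third family -/

theorem fam_mem_pre (y : ℕ) : fam (era y) ∈ pre y (fam (era y + 2)) := by
  rw [mem_pre]
  rcases ordK_cases y with h | h
  · rw [h, rk_next2, rk_self]
    exact ⟨fun hc => absurd hc.2 (by norm_num), by norm_num⟩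
  · have hi : ¬ iso y := by
      intro hi
      have := ordK_of_iso hi
      omega
    rw [h, rk_prev, show era y + 2 = (era y + 1) + 1 from rfl, rk_next]
    exact ⟨fun hc => hi hc.1, by norm_num⟩

theorem mem_mov {f : Fin 3} : f ∈ mov m k l' l ↔ cnt f (mL m k l') < cnt f (mL m k l) := by
  unfold mov
  rw [mem_filter]
  exact ⟨fun h => h.2, fun h => ⟨mem_univ _, h⟩⟩

theorem mov_own {f : Fin 3} (hl : l' ≤ l) (hf : f ∈ mov m k l' l) :
    ∃ t, mL m k l' ≤ t ∧ t < mL m k l ∧ own t = f := by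
  by_contra hc
  push Not at hc
  have h1 := cnt_eq_of f (l1_mono (ins m k) hl) (fun t h1 h2 => hc t h1 h2)
  have h2 := mem_mov.1 hf
  have h3 : cnt f (mL m k l) = cnt f (mL m k l') := h1
  omega

/-- the moving families hash the third family, in both states -/
theorem mov_pre (h : Dat m k l' l) {f : Fin 3} (hf : f ∈ mov m k l' l) :
    f ∈ pre (mL m k l) (fam (era (mL m k l') + 2)) ∧
      f ∈ pre (mL m k l') (fam (era (mL m k l') + 2)) := by
  obtain ⟨t, ht1, ht2, ht3⟩ := mov_own h.ll.le hf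
  have hw := own_pair h ht1 (lt_of_lt_of_le ht2 (l1_mono (ins m k) h.le))
  have same : era (mL m k l') = era (mL m k l) →
      f ∈ pre (mL m k l) (fam (era (mL m k l') + 2)) ∧
        f ∈ pre (mL m k l') (fam (era (mL m k l') + 2)) := by
    intro he
    have h1 := Pool.Agent.Helper27.T4.era_mono ht1
    have h2 := Pool.Agent.Helper27.T4.era_mono ht2.le
    have h3 : f = fam (era (mL m k l')) := by
      rw [← ht3, own_eq]
      congr 1
      omega
    rw [h3]
    refine ⟨?_, fam_mem_pre _⟩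
    rw [he]
    exact fam_mem_pre _
  rcases phase_cases h.h0 (l1_mono (ins m k) h.ll.le) h.cl with h1 | h1 | h1 | h1
  · exact same h1.1
  · exact same h1.1
  · exact same h1.1
  · obtain ⟨a1, a2, a3, a4, a5⟩ := h1
    have b1 : ordK (mL m k l) = era (mL m k l') + 1 := a3.trans a1.symm
    have b2 : ordK (mL m k l') = era (mL m k l') + 1 := a2.trans a1.symm
    have b3 : rk (era (mL m k l') + 1) f < rk (era (mL m k l') + 1)
        (fam (era (mL m k l') + 2)) := by
      rw [show era (mL m k l') + 2 = (era (mL m k l') + 1) + 1 from rfl, rk_next, ← ht3]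
      rcases hw with hw | hw
      · rw [hw, rk_prev]
        norm_num
      · rw [hw, rk_self]
        norm_num
    rw [mem_pre, mem_pre]
    refine ⟨⟨fun hc => a5 hc.1, ?_⟩, ⟨fun hc => a4 hc.1, ?_⟩⟩
    · rw [b1]
      exact b3
    · rw [b2]
      exact b3

/-- the order of the upper state is good for the lower state -/
theorem rank_lower (h : Dat m k l' l) {f g : Fin 3} (hg : g ∈ pre (mL m k l') f) :
    rk (ordK (mL m k l)) g < rk (ordK (mL m k l)) f := by
  rw [mem_pre] at hg
  obtain ⟨h1, h2⟩ := hg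
  rcases phase_cases h.h0 (l1_mono (ins m k) h.ll.le) h.cl with ⟨-, h3, -⟩ | ⟨-, h3, h4, -, -⟩ |
    ⟨-, h3, h4, h5, -⟩ | ⟨-, h3, h4, -, -⟩
  · rwa [← show ordK (mL m k l') = ordK (mL m k l) from h3]
  · rw [show ordK (mL m k l) = ordK (mL m k l') from h4.trans h3.symm]
    exact h2
  · have h6 : rk (ordK (mL m k l')) f ≠ 2 := fun hc => h1 ⟨h5, hc⟩
    have h7 := rk_lt (ordK (mL m k l')) f
    have h8 : rk (ordK (mL m k l')) f = 1 := by omega
    have h9 : rk (ordK (mL m k l')) g = 0 := by omega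
    have e1 := eq_fam_of_rk_one h8
    have e2 := eq_fam_of_rk_zero h9
    rw [show ordK (mL m k l') = era (mL m k l) from h3] at e1 e2
    rw [e1, e2, show ordK (mL m k l) = era (mL m k l) + 1 from h4, rk_prev,
      show era (mL m k l) + 2 = (era (mL m k l) + 1) + 1 from rfl, rk_next]
    norm_num
  · rw [show ordK (mL m k l) = ordK (mL m k l') from h4.trans h3.symm]
    exact h2

/-! ## the requirements -/

theorem MNs_ok_of (h : Dat m k l' l) : (MNs m k l' l).Ok (Mk m k) := by
  refine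
    { prime := pJ_prime k _
      odd := pJ_ne_two k _
      inj := pJ_inj k _
      adm := fun x hx i => ?_
      adm' := fun x hx i => ?_
      cc := fun i => Pool.Agent.Helper54.T5g.aJ_mono h.ll.le i
      ce := fun i => Pool.Agent.Helper54.T5g.aJ_mono h.le i
      ce' := fun i => Pool.Agent.Helper54.T5g.aJ_mono h.le' i
      ee := fun i => Pool.Agent.Helper54.T5g.aJ_mono h.ee i
      rank := fun i j hj => ?_
      dep := fun i x y hxy => congrArg (Key.J l i) (maskJ_congr hxy)
      dep' := fun i x y hxy => congrArg (Key.J l' i) (maskJ_congr hxy)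
      sep := fun x _ y _ hxy => ?_
      sep' := fun x _ y _ hxy => ?_
      new := fun i x y hi => ⟨fun hc => hi ?_, fun hc => hi ?_⟩
      mix := fun i x j y hc => ?_
      size := fun x _ => ?_
      size' := fun x _ => ?_
      PR := ?_
      PR' := ?_
      RP := ?_
      statR := ?_ }
  · rcases mem_XJ.1 hx i with ⟨_, h2⟩ | ⟨_, h2, h3, h4⟩
    · rw [h2]
      exact ⟨Nat.coprime_one_left _, Or.inl rfl⟩
    · exact ⟨h3, Or.inr ⟨h2, h4⟩⟩
  · have hx' := mem_XJ.1 (show x ∈ XJ m k l' from hx) i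
    rw [h.ss] at hx'
    rcases hx' with ⟨_, h2⟩ | ⟨_, h2, h3, h4⟩
    · rw [h2]
      exact ⟨Nat.coprime_one_left _, Or.inl rfl⟩
    · exact ⟨h3, Or.inr ⟨h2, h4⟩⟩
  · change j ∈ preJ m k l i ∪ preJ m k l' i at hj
    rw [mem_union] at hj
    rcases i with f | i
    · rcases hj with hj | hj
      · obtain ⟨g, h1, rfl⟩ := mem_preJ_inl hj
        exact ((mem_pre _ _ _).1 h1).2
      · obtain ⟨g, h1, rfl⟩ := mem_preJ_inl hj
        exact rank_lower h h1
    · exfalso
      rcases hj with hj | hj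
      · exact absurd hj (by unfold preJ; simp)
      · exact absurd hj (by unfold preJ; simp)
  · exact maskJ_inj (Key.J.inj hxy).2.2
  · exact maskJ_inj (Key.J.inj hxy).2.2
  · exact (Key.J.inj hc).2.1
  · exact (Key.J.inj hc).2.1
  · exact absurd (Key.J.inj hc).1 (by have := h.ll; omega)
  · rfl
  · change pJ k (sL m k l') (Sum.inl (fam (era (mL m k l') + 2))) ^
        aJ m k (sL m k l') (ef m k l' 0) (Sum.inl (fam (era (mL m k l') + 2))) =
      pJ k (sL m k l) (Sum.inl (fam (era (mL m k l') + 2))) ^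
        aJ m k (sL m k l) (ef m k l 0) (Sum.inl (fam (era (mL m k l') + 2)))
    rw [aJ_third h _ h.le' h.ee, aJ_third h _ (h.ll.le.trans h.le) le_rfl, h.ss]
  · intro j hj
    change j ∈ (mov m k l' l).image Sum.inl at hj
    rw [mem_image] at hj
    obtain ⟨f, hf, rfl⟩ := hj
    exact mem_image_of_mem _ (mov_pre h hf).1
  · intro j hj
    change j ∈ (mov m k l' l).image Sum.inl at hj
    rw [mem_image] at hj
    obtain ⟨f, hf, rfl⟩ := hj
    exact mem_image_of_mem _ (mov_pre h hf).2
  · intro hc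
    change Sum.inl (fam (era (mL m k l') + 2)) ∈ (mov m k l' l).image Sum.inl at hc
    rw [mem_image] at hc
    obtain ⟨f, hf, hf2⟩ := hc
    have h1 := Sum.inl.inj hf2
    rw [h1] at hf
    have h2 := mem_mov.1 hf
    rw [cnt_third h h.ll.le h.le] at h2
    omega
  · exact (aJ_third h (sL m k l) (h.ll.le.trans h.le) le_rfl).symm

/-- **the joint level of a near pair without SPLIT satisfies the requirements** -/
theorem MNs_ok (hm : m.Ok) (k : ℕ) : ∃ l0, ∀ l' l, l0 ≤ l' → l' < l →
    Near m k l' l → Same m k l' l → (MNs m k l' l).Ok (Mk m k) := by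
  obtain ⟨l0, h⟩ := exists_dat hm k
  exact ⟨l0, fun l' l h0 hl hn hs => MNs_ok_of (h l' l h0 hl hn hs)⟩

/-! ## the codes -/

theorem MNs_cd (hM : (MNs m k l' l).Ok (Mk m k)) (w : Key → ℕ) (x : JF → ℕ) :
    (MNs m k l' l).cd hM w x = c0 m k l w x := rfl

theorem MNs_cd' (hs : Same m k l' l) (hM : (MNs m k l' l).Ok (Mk m k)) (w : Key → ℕ)
    (x : JF → ℕ) : (MNs m k l' l).cd' hM w x = c0 m k l' w x := by
  have key : ∀ s, sL m k l' = s →
      cv (pJ_prime k s) (pJ_inj k s) (aJ m k s (ef m k l' 0))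
        (fun i => Lg (pJ k s i) (aJ m k s (ef m k l' 0) i) (x i) +
          ((w (Key.J l' i (maskJ (preJ m k l' i) x)) : ℕ) :
            ZMod (pJ k s i ^ aJ m k s (ef m k l' 0) i))) = c0 m k l' w x := by
    intro s hs
    subst hs
    rfl
  exact key _ hs

/-! ## constants -/

theorem pJ_le_BP (k s : ℕ) (i : JF) : pJ k s i ≤ BP k := by
  rcases i with f | i
  · exact pr_le_BP k f
  · refine Fin.cases ?_ (fun f => ?_) i
    · exact (buf_lt_BP k).le
    · exact pz_le k (s + 1) f

/-- the decoding constant -/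
theorem MNs_C_le (m : Sq) (k l' l : ℕ) : (MNs m k l' l).C ≤ (2 * BP k) ^ 7 := by
  have h1 : (MNs m k l' l).C = ∏ i : JF, (2 * (pJ k (sL m k l) i - 1)) := rfl
  rw [h1]
  refine (Finset.prod_le_pow_card _ _ (2 * BP k) (fun i _ => ?_)).trans (le_of_eq ?_)
  · have := pJ_le_BP k (sL m k l) i
    omega
  · have e : Fintype.card JF = 7 := by
      rw [Fintype.card_sum, Fintype.card_fin, Fintype.card_fin]
    rw [Finset.card_univ, e]

theorem MNs_Ne (m : Sq) (k l' l : ℕ) : (MNs m k l' l).Ne = FF m k l 0 := rfl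

theorem MNs_Ne' (hs : Same m k l' l) : (MNs m k l' l).Ne' = FF m k l' 0 := by
  have h1 : (MNs m k l' l).Ne' = Jn m k (sL m k l) (ef m k l' 0) := rfl
  rw [h1]
  unfold FF
  rw [show sL m k l' = sL m k l from hs]

theorem MNs_N0 (m : Sq) (k l' l : ℕ) : (MNs m k l' l).N0 = Jn m k (sL m k l) l' := rfl

/-- the exponent of the fresh family in both fronts and at both indices -/
theorem MNs_q (h : Dat m k l' l) : (MNs m k l' l).q =
    pr (fam (era (mL m k l') + 2)) ^ cnt (fam (era (mL m k l') + 2)) (mL m k l') := by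
  have h1 : (MNs m k l' l).q = pJ k (sL m k l) (Sum.inl (fam (era (mL m k l') + 2))) ^
      aJ m k (sL m k l) (ef m k l 0) (Sum.inl (fam (era (mL m k l') + 2))) := rfl
  rw [h1, aJ_third h _ (h.ll.le.trans h.le) le_rfl, pJ_inl, aJ_cnt]

end Pool.Agent.Helper96.T5g
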